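import Mathlib
import Pool.Agent.Helper86.LP.Defs

/-!
Log-Brunn-Minkowski in dimension three: statements of the modules.
`X` is a finite dimensional real space with a Haar measure, `φ u` are linear functionals,
`KS φ h = {x | |φ u x| ≤ h u for all u}` is an intersection of strips.
-/

open MeasureTheory Module
open scoped ENNReal

namespace Pool.Agent.Helper96.LB3

/-- Intersection of strips. -/
def KS {X ι : Type} [NormedAddCommGroup X] [NormedSpace ℝ X] (φ : ι → X →ₗ[ℝ] ℝ) (h : ι → ℝ) :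
    Set X :=
  {x | ∀ u, |φ u x| ≤ h u}

/-- Its volume. -/
noncomputable def VS {X ι : Type} [NormedAddCommGroup X] [NormedSpace ℝ X] [MeasurableSpace X]
    (μ : Measure X) (φ : ι → X →ₗ[ℝ] ℝ) (h : ι → ℝ) : ℝ :=
  μ.real (KS φ h)

/-- The functionals separate points, i.e. they span the dual space. -/
def Sep {X ι : Type} [NormedAddCommGroup X] [NormedSpace ℝ X] (φ : ι → X →ₗ[ℝ] ℝ) : Prop :=
  ∀ x, (∀ u, φ u x = 0) → x = 0

/-- Geometric mean of the heights. -/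
noncomputable def gm {ι : Type} (hp hm : ι → ℝ) : ι → ℝ := fun u => √(hp u * hm u)

/-- Every strip touches the body. -/
def Tight {X ι : Type} [NormedAddCommGroup X] [NormedSpace ℝ X] (φ : ι → X →ₗ[ℝ] ℝ)
    (h : ι → ℝ) : Prop :=
  ∀ u, ∃ x ∈ KS φ h, φ u x = h u

/-- Proportional heights. -/
def Prop' {ι : Type} (hp hm : ι → ℝ) : Prop := ∃ c : ℝ, ∀ u, hp u = c * hm u

/-- In the product `Y × ℝ`: the functional `(y, z) ↦ β u y + q u * z`. -/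
noncomputable def fn {Y ι : Type} [NormedAddCommGroup Y] [NormedSpace ℝ Y]
    (β : ι → Y →ₗ[ℝ] ℝ) (q : ι → ℝ) : ι → (Y × ℝ) →ₗ[ℝ] ℝ :=
  fun u => (β u).comp (LinearMap.fst ℝ Y ℝ) + q u • LinearMap.snd ℝ Y ℝ

/-- The body in `Y × ℝ`. -/
def KB {Y ι : Type} [NormedAddCommGroup Y] [NormedSpace ℝ Y]
    (β : ι → Y →ₗ[ℝ] ℝ) (q : ι → ℝ) (h : ι → ℝ) : Set (Y × ℝ) :=
  {x | ∀ u, |β u x.1 + q u * x.2| ≤ h u}

/-- Its projection to `Y`. -/
def PB {Y ι : Type} [NormedAddCommGroup Y] [NormedSpace ℝ Y]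
    (β : ι → Y →ₗ[ℝ] ℝ) (q : ι → ℝ) (h : ι → ℝ) : Set Y :=
  {y | ∃ z : ℝ, ∀ u, |β u y + q u * z| ≤ h u}

/-- Its fibre over `y`. -/
def FB {Y ι : Type} [NormedAddCommGroup Y] [NormedSpace ℝ Y]
    (β : ι → Y →ₗ[ℝ] ℝ) (q : ι → ℝ) (h : ι → ℝ) (y : Y) : Set ℝ :=
  {z | ∀ u, |β u y + q u * z| ≤ h u}

/-- Volume of the body in `Y × ℝ`. -/
noncomputable def VB {Y ι : Type} [NormedAddCommGroup Y] [NormedSpace ℝ Y] [MeasurableSpace Y]
    (ν : Measure Y) (β : ι → Y →ₗ[ℝ] ℝ) (q : ι → ℝ) (h : ι → ℝ) : ℝ :=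
  (ν.prod (volume : Measure ℝ)).real (KB β q h)

/-- Measure of the projection. -/
noncomputable def AB {Y ι : Type} [NormedAddCommGroup Y] [NormedSpace ℝ Y] [MeasurableSpace Y]
    (ν : Measure Y) (β : ι → Y →ₗ[ℝ] ℝ) (q : ι → ℝ) (h : ι → ℝ) : ℝ :=
  ν.real (PB β q h)

/-- Separation in `Y × ℝ`. -/
def SepB {Y ι : Type} [NormedAddCommGroup Y] [NormedSpace ℝ Y]
    (β : ι → Y →ₗ[ℝ] ℝ) (q : ι → ℝ) : Prop :=
  ∀ (y : Y) (z : ℝ), (∀ u, β u y + q u * z = 0) → y = 0 ∧ z = 0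

/-! ### Basic facts -/

/-- POS: the body is compact, of positive finite volume. -/
def ST_POS : Prop :=
  ∀ (X ι : Type) [NormedAddCommGroup X] [NormedSpace ℝ X] [FiniteDimensional ℝ X]
    [MeasurableSpace X] [BorelSpace X] (μ : Measure X) [μ.IsAddHaarMeasure] [Fintype ι]
    (φ : ι → X →ₗ[ℝ] ℝ) (h : ι → ℝ), Sep φ → (∀ u, 0 < h u) →
    IsCompact (KS φ h) ∧ Convex ℝ (KS φ h) ∧ 0 < VS μ φ h ∧ μ (KS φ h) < ∞

/-- BND: the ratio is bounded. -/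
def ST_BND : Prop :=
  ∀ (X ι : Type) [NormedAddCommGroup X] [NormedSpace ℝ X] [FiniteDimensional ℝ X]
    [MeasurableSpace X] [BorelSpace X] (μ : Measure X) [μ.IsAddHaarMeasure] [Fintype ι]
    (φ : ι → X →ₗ[ℝ] ℝ), Sep φ →
    ∃ C : ℝ, ∀ hp hm : ι → ℝ, (∀ u, 0 < hp u) → (∀ u, 0 < hm u) →
      VS μ φ hp * VS μ φ hm ≤ C * (VS μ φ (gm hp hm)) ^ 2

/-- TIG: tightening. -/
def ST_TIG : Prop :=
  ∀ (X ι : Type) [NormedAddCommGroup X] [NormedSpace ℝ X] [FiniteDimensional ℝ X]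
    [MeasurableSpace X] [BorelSpace X] [Fintype ι]
    (φ : ι → X →ₗ[ℝ] ℝ) (h : ι → ℝ), Sep φ → (∀ u, φ u ≠ 0) → (∀ u, 0 < h u) →
    ∃ h' : ι → ℝ, (∀ u, 0 < h' u) ∧ (∀ u, h' u ≤ h u) ∧ KS φ h' = KS φ h ∧ Tight φ h'

/-- PRP: proportional heights give equality. -/
def ST_PRP : Prop :=
  ∀ (X ι : Type) [NormedAddCommGroup X] [NormedSpace ℝ X] [FiniteDimensional ℝ X]
    [MeasurableSpace X] [BorelSpace X] (μ : Measure X) [μ.IsAddHaarMeasure] [Fintype ι]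
    (φ : ι → X →ₗ[ℝ] ℝ) (hp hm : ι → ℝ), (∀ u, 0 < hp u) → (∀ u, 0 < hm u) → Prop' hp hm →
      VS μ φ hp * VS μ φ hm = (VS μ φ (gm hp hm)) ^ 2

/-! ### Shrinking along the last coordinate -/

/-- FIB: fibres are segments; shrinking by `t`. -/
def ST_FIB : Prop :=
  ∀ (Y ι : Type) [NormedAddCommGroup Y] [NormedSpace ℝ Y] [FiniteDimensional ℝ Y] [Fintype ι]
    (β : ι → Y →ₗ[ℝ] ℝ) (q : ι → ℝ), SepB β q → ∀ (h : ι → ℝ), ∀ y : Y,
      ∃ a b : ℝ, ∀ t : ℝ, 0 ≤ t →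
        FB β q (fun u => h u - t * |q u|) y = Set.Icc (a + t) (b - t)

/-- VO1: volume lost by shrinking is at most `2 t` times the projection. -/
def ST_VO1 : Prop :=
  ∀ (Y ι : Type) [NormedAddCommGroup Y] [NormedSpace ℝ Y] [FiniteDimensional ℝ Y]
    [MeasurableSpace Y] [BorelSpace Y] (ν : Measure Y) [ν.IsAddHaarMeasure] [Fintype ι]
    (β : ι → Y →ₗ[ℝ] ℝ) (q : ι → ℝ), SepB β q → ∀ (h : ι → ℝ), (∀ u, 0 < h u) →
      ∀ t : ℝ, 0 ≤ t →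
        VB ν β q h - 2 * t * AB ν β q h ≤ VB ν β q (fun u => h u - t * |q u|)

/-- VO2: and almost as much. -/
def ST_VO2 : Prop :=
  ∀ (Y ι : Type) [NormedAddCommGroup Y] [NormedSpace ℝ Y] [FiniteDimensional ℝ Y]
    [MeasurableSpace Y] [BorelSpace Y] (ν : Measure Y) [ν.IsAddHaarMeasure] [Fintype ι]
    (β : ι → Y →ₗ[ℝ] ℝ) (q : ι → ℝ), SepB β q → ∀ (h : ι → ℝ), (∀ u, 0 < h u) →
      ∀ t : ℝ, 0 ≤ t → 2 * t * AB ν β q h ≤ VB ν β q h →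
        VB ν β q (fun u => h u - t * |q u|) ≤ VB ν β q h -
          2 * t * AB ν β q h * (1 - finrank ℝ Y * (2 * t * AB ν β q h / VB ν β q h))

/-- VO3: chord bound. -/
def ST_VO3 : Prop :=
  ∀ (Y ι : Type) [NormedAddCommGroup Y] [NormedSpace ℝ Y] [FiniteDimensional ℝ Y]
    [MeasurableSpace Y] [BorelSpace Y] (ν : Measure Y) [ν.IsAddHaarMeasure] [Fintype ι]
    (β : ι → Y →ₗ[ℝ] ℝ) (q : ι → ℝ), SepB β q → ∀ (h : ι → ℝ), (∀ u, 0 < h u) →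
      ∀ u, VB ν β q h * |q u| ≤ 2 * h u * AB ν β q h

/-- VO0: positivity and monotonicity. -/
def ST_VO0 : Prop :=
  ∀ (Y ι : Type) [NormedAddCommGroup Y] [NormedSpace ℝ Y] [FiniteDimensional ℝ Y]
    [MeasurableSpace Y] [BorelSpace Y] (ν : Measure Y) [ν.IsAddHaarMeasure] [Fintype ι]
    (β : ι → Y →ₗ[ℝ] ℝ) (q : ι → ℝ), SepB β q → ∀ (h : ι → ℝ), (∀ u, 0 < h u) →
      0 < VB ν β q h ∧ 0 < AB ν β q h ∧
        ∀ h' : ι → ℝ, (∀ u, h' u ≤ h u) → VB ν β q h' ≤ VB ν β q h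

/-- IMP: if the projections satisfy the inequality then a ratio `θ > 1` can be improved. -/
def ST_IMP : Prop :=
  ∀ (Y ι : Type) [NormedAddCommGroup Y] [NormedSpace ℝ Y] [FiniteDimensional ℝ Y]
    [MeasurableSpace Y] [BorelSpace Y] (ν : Measure Y) [ν.IsAddHaarMeasure] [Fintype ι]
    (β : ι → Y →ₗ[ℝ] ℝ) (q : ι → ℝ), SepB β q → 0 < finrank ℝ Y →
    ∀ (hp hm : ι → ℝ), (∀ u, 0 < hp u) → (∀ u, 0 < hm u) →
      AB ν β q hp * AB ν β q hm ≤ (AB ν β q (gm hp hm)) ^ 2 →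
      ∀ θ : ℝ, 1 < θ → √(VB ν β q hp * VB ν β q hm) = θ * VB ν β q (gm hp hm) →
        ∃ hp' hm' : ι → ℝ, (∀ u, 0 < hp' u) ∧ (∀ u, 0 < hm' u) ∧
          (θ + (θ - 1) ^ 2 / (4 * finrank ℝ Y * θ)) * VB ν β q (gm hp' hm') ≤
            √(VB ν β q hp' * VB ν β q hm')

/-! ### From `X` to `Y × ℝ` -/

/-- The projection inequality in suitable coordinates: the body of heights `h` in `X` is seen
in `Y × ℝ` through `L`. -/
def PW {X Y ι : Type} [NormedAddCommGroup X] [NormedSpace ℝ X] [NormedAddCommGroup Y]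
    [NormedSpace ℝ Y] [MeasurableSpace Y] (ν : Measure Y) (φ : ι → X →ₗ[ℝ] ℝ)
    (L : (Y × ℝ) ≃ₗ[ℝ] X) (hp hm : ι → ℝ) : Prop :=
  AB ν (fun u => (φ u).comp (L.toLinearMap.comp (LinearMap.inl ℝ Y ℝ)))
      (fun u => φ u (L (0, 1))) hp *
    AB ν (fun u => (φ u).comp (L.toLinearMap.comp (LinearMap.inl ℝ Y ℝ)))
      (fun u => φ u (L (0, 1))) hm ≤
    (AB ν (fun u => (φ u).comp (L.toLinearMap.comp (LinearMap.inl ℝ Y ℝ)))
      (fun u => φ u (L (0, 1))) (gm hp hm)) ^ 2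

/-- LIN: volumes in the two pictures are proportional. -/
def ST_LIN : Prop :=
  ∀ (X Y ι : Type) [NormedAddCommGroup X] [NormedSpace ℝ X] [FiniteDimensional ℝ X]
    [MeasurableSpace X] [BorelSpace X] (μ : Measure X) [μ.IsAddHaarMeasure]
    [NormedAddCommGroup Y] [NormedSpace ℝ Y] [FiniteDimensional ℝ Y]
    [MeasurableSpace Y] [BorelSpace Y] (ν : Measure Y) [ν.IsAddHaarMeasure] [Fintype ι]
    (φ : ι → X →ₗ[ℝ] ℝ) (L : (Y × ℝ) ≃ₗ[ℝ] X),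
    ∃ c : ℝ, 0 < c ∧ ∀ h : ι → ℝ, VS μ φ h =
      c * VB ν (fun u => (φ u).comp (L.toLinearMap.comp (LinearMap.inl ℝ Y ℝ)))
        (fun u => φ u (L (0, 1))) h

/-- PWd: in dimension `d`, every tight non proportional pair has such coordinates. -/
def PWd (d : ℕ) : Prop :=
  ∀ (X ι : Type) [NormedAddCommGroup X] [NormedSpace ℝ X] [FiniteDimensional ℝ X]
    [MeasurableSpace X] [BorelSpace X] [Fintype ι] (φ : ι → X →ₗ[ℝ] ℝ), finrank ℝ X = d →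
    Sep φ → (∀ u, φ u ≠ 0) →
    ∀ hp hm : ι → ℝ, (∀ u, 0 < hp u) → (∀ u, 0 < hm u) → Tight φ hp → Tight φ hm →
      ¬ Prop' hp hm →
      ∃ (Y : Type) (_ : NormedAddCommGroup Y) (_ : NormedSpace ℝ Y) (_ : FiniteDimensional ℝ Y)
        (_ : MeasurableSpace Y) (_ : BorelSpace Y) (ν : Measure Y) (_ : ν.IsAddHaarMeasure)
        (L : (Y × ℝ) ≃ₗ[ℝ] X), PW ν φ L hp hm

/-- The midpoint form of the log-Brunn-Minkowski inequality in dimension `d`. -/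
def LBM (d : ℕ) : Prop :=
  ∀ (X ι : Type) [NormedAddCommGroup X] [NormedSpace ℝ X] [FiniteDimensional ℝ X]
    [MeasurableSpace X] [BorelSpace X] (μ : Measure X) [μ.IsAddHaarMeasure] [Fintype ι]
    (φ : ι → X →ₗ[ℝ] ℝ), finrank ℝ X = d → Sep φ →
    ∀ hp hm : ι → ℝ, (∀ u, 0 < hp u) → (∀ u, 0 < hm u) →
      VS μ φ hp * VS μ φ hm ≤ (VS μ φ (gm hp hm)) ^ 2

/-- SUP: the supremum argument. -/
def ST_SUP : Prop := ∀ d : ℕ, 2 ≤ d → PWd d → LBM d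

/-! ### Dimension three: the planar lemma -/

/-- The polygon in the square. -/
def Q {E : Type} (g1 g2 A : E → ℝ) : Set (ℝ × ℝ) :=
  {p | |p.1| ≤ 1 ∧ |p.2| ≤ 1 ∧ ∀ e, g1 e * p.1 + g2 e * p.2 ≤ A e}

/-- The upper boundary of the polygon. -/
noncomputable def topf {E : Type} (g1 g2 A : E → ℝ) (x : ℝ) : ℝ :=
  ⨅ e : Option E, (match e with
    | none => 1
    | some e => if 0 < g2 e then (A e - g1 e * x) / g2 e else 1)

/-- The family of constraints is symmetric. -/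
def Sym {E : Type} (g1 g2 A : E → ℝ) : Prop :=
  ∀ e, ∃ e', g1 e' = -g1 e ∧ g2 e' = -g2 e ∧ A e' = A e

/-- CLA: the area of a polygon which touches the sides of the square. -/
def ST_CLA : Prop :=
  ∀ (E : Type) [Fintype E] (g1 g2 A : E → ℝ), Sym g1 g2 A →
    (∃ p ∈ Q g1 g2 A, p.1 = 1) →
      volume.real (Q g1 g2 A) = 2 * ∫ x in (-1 : ℝ)..1, topf g1 g2 A x

/-- CLB: lower bound for the area without touching. -/
def ST_CLB : Prop :=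
  ∀ (E : Type) [Fintype E] (g1 g2 A : E → ℝ), Sym g1 g2 A →
    (∀ e, g2 e = 0 → |g1 e| ≤ A e) →
      2 * ∫ x in (-1 : ℝ)..1, topf g1 g2 A x ≤ volume.real (Q g1 g2 A)

/-- CLC: the cosh inequality, integrated. `r = e ^ κ`. -/
def ST_CLC : Prop :=
  ∀ (E : Type) [Fintype E] (g1 g2 Ap Am A0 : E → ℝ) (r : ℝ), 1 ≤ r →
    (∀ e, Ap e + Am e ≤ (r + r⁻¹) * A0 e) →
    (∃ p ∈ Q (fun e => g1 e * r) (fun e => g2 e * r⁻¹) Ap, p.2 = 1) →
    (∃ p ∈ Q (fun e => g1 e * r⁻¹) (fun e => g2 e * r) Am, p.2 = 1) →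
      (∫ x in (-1 : ℝ)..1, topf (fun e => g1 e * r) (fun e => g2 e * r⁻¹) Ap x) +
        (∫ x in (-1 : ℝ)..1, topf (fun e => g1 e * r⁻¹) (fun e => g2 e * r) Am x) ≤
        2 * ∫ x in (-1 : ℝ)..1, topf g1 g2 A0 x

/-- CL: the planar lemma. -/
def ST_CL : Prop :=
  ∀ (E : Type) [Fintype E] (g1 g2 Ap Am A0 : E → ℝ) (r : ℝ), 1 ≤ r →
    Sym g1 g2 Ap → Sym g1 g2 Am → Sym g1 g2 A0 →
    (∀ e, Ap e + Am e ≤ (r + r⁻¹) * A0 e) →
    (∃ p ∈ Q (fun e => g1 e * r) (fun e => g2 e * r⁻¹) Ap, p.1 = 1) →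
    (∃ p ∈ Q (fun e => g1 e * r) (fun e => g2 e * r⁻¹) Ap, p.2 = 1) →
    (∃ p ∈ Q (fun e => g1 e * r⁻¹) (fun e => g2 e * r) Am, p.1 = 1) →
    (∃ p ∈ Q (fun e => g1 e * r⁻¹) (fun e => g2 e * r) Am, p.2 = 1) →
      volume.real (Q (fun e => g1 e * r) (fun e => g2 e * r⁻¹) Ap) +
        volume.real (Q (fun e => g1 e * r⁻¹) (fun e => g2 e * r) Am) ≤
        2 * volume.real (Q g1 g2 A0)

/-! ### Helly on the line -/

/-- Index of the planar constraints. -/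
abbrev EI (ι : Type) : Type := (ι × ι) ⊕ (ι × Bool)

/-- First coefficient of the planar constraint. `b u` are the coefficients of `y` in strip `u`. -/
noncomputable def EG {ι : Type} (b q : ι → ℝ) : EI ι → ℝ
  | Sum.inl (u, v) => if q u ≠ 0 ∧ q v ≠ 0 then b v / q v - b u / q u else 0
  | Sum.inr (u, s) => if q u = 0 then (if s then b u else -b u) else 0

/-- Right hand side of the planar constraint. -/
noncomputable def EA {ι : Type} (q h : ι → ℝ) : EI ι → ℝ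
  | Sum.inl (u, v) => if q u ≠ 0 ∧ q v ≠ 0 then h v / |q v| + h u / |q u| else 0
  | Sum.inr (u, _) => if q u = 0 then h u else 0

/-- HEL: Helly on the line. -/
def ST_HEL : Prop :=
  ∀ (ι : Type) [Fintype ι] (b1 b2 q h : ι → ℝ) (y1 y2 : ℝ),
    (∃ z : ℝ, ∀ u, |b1 u * y1 + b2 u * y2 + q u * z| ≤ h u) ↔
      ∀ e : EI ι, EG b1 q e * y1 + EG b2 q e * y2 ≤ EA q h e

/-- PL3: the projection inequality for bodies in `ℝ² × ℝ` when the strips `k` and `l` are the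
coordinate strips and have the extreme ratios. -/
def ST_PL3 : Prop :=
  ∀ (ι : Type) [Fintype ι] (b1 b2 q hp hm : ι → ℝ) (k l : ι),
    (∀ u, 0 < hp u) → (∀ u, 0 < hm u) →
    b1 k = 1 → b2 k = 0 → q k = 0 → b1 l = 0 → b2 l = 1 → q l = 0 →
    (∀ u, hp u * hm k ≤ hp k * hm u) → (∀ u, hp l * hm u ≤ hp u * hm l) →
    (∃ y1 y2 z : ℝ, (∀ u, |b1 u * y1 + b2 u * y2 + q u * z| ≤ hp u) ∧ y1 = hp k) →
    (∃ y1 y2 z : ℝ, (∀ u, |b1 u * y1 + b2 u * y2 + q u * z| ≤ hp u) ∧ y2 = hp l) →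
    (∃ y1 y2 z : ℝ, (∀ u, |b1 u * y1 + b2 u * y2 + q u * z| ≤ hm u) ∧ y1 = hm k) →
    (∃ y1 y2 z : ℝ, (∀ u, |b1 u * y1 + b2 u * y2 + q u * z| ≤ hm u) ∧ y2 = hm l) →
    (volume : Measure (ℝ × ℝ)).real
        {y | ∃ z : ℝ, ∀ u, |b1 u * y.1 + b2 u * y.2 + q u * z| ≤ hp u} *
      (volume : Measure (ℝ × ℝ)).real
        {y | ∃ z : ℝ, ∀ u, |b1 u * y.1 + b2 u * y.2 + q u * z| ≤ hm u} ≤
      ((volume : Measure (ℝ × ℝ)).real
        {y | ∃ z : ℝ, ∀ u, |b1 u * y.1 + b2 u * y.2 + q u * z| ≤ gm hp hm u}) ^ 2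

/-- PW3: selection of the coordinates. -/
def ST_PW3 : Prop := PWd 3

/-! ### From the midpoint form to the section function -/

/-- MID: from the midpoint form to all weights. -/
def ST_MID : Prop :=
  ∀ (X ι : Type) [NormedAddCommGroup X] [NormedSpace ℝ X] [FiniteDimensional ℝ X]
    [MeasurableSpace X] [BorelSpace X] (μ : Measure X) [μ.IsAddHaarMeasure] [Fintype ι]
    (φ : ι → X →ₗ[ℝ] ℝ), Sep φ →
    (∀ hp hm : ι → ℝ, (∀ u, 0 < hp u) → (∀ u, 0 < hm u) →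
      VS μ φ hp * VS μ φ hm ≤ (VS μ φ (gm hp hm)) ^ 2) →
    ∀ l m : ℝ, 0 < l → 0 < m → l + m = 1 → ∀ σ τ : ι → ℝ,
      VS μ φ (fun u => Real.exp (σ u)) ^ l * VS μ φ (fun u => Real.exp (τ u)) ^ m ≤
        VS μ φ (fun u => Real.exp (l * σ u + m * τ u))

/-- LOW: lower dimensions follow by taking products with an interval. -/
def ST_LOW : Prop := ∀ d : ℕ, LBM (d + 1) → LBM d

/-- The coordinate functionals on a subspace. -/
noncomputable def co {n : ℕ} (H : Submodule ℝ (EuclideanSpace ℝ (Fin n))) (i : Fin n) :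
    H →ₗ[ℝ] ℝ :=
  (EuclideanSpace.proj i : EuclideanSpace ℝ (Fin n) →L[ℝ] ℝ).toLinearMap.comp H.subtype

/-- PRE: Prekopa step, from the cube to the exponent `p`. -/
def ST_PRE : Prop :=
  ∀ (n : ℕ) (H : Submodule ℝ (EuclideanSpace ℝ (Fin n))),
    (∀ l m : ℝ, 0 < l → 0 < m → l + m = 1 → ∀ σ τ : Fin n → ℝ,
      VS (volume : Measure H) (co H) (fun u => Real.exp (σ u)) ^ l *
        VS (volume : Measure H) (co H) (fun u => Real.exp (τ u)) ^ m ≤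
        VS (volume : Measure H) (co H) (fun u => Real.exp (l * σ u + m * τ u))) →
    ∀ p : ℝ, 1 ≤ p → Helper86.LP.IsLogConcave (Helper86.LP.sectionVolume p H)

end Pool.Agent.Helper96.LB3
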