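import Pool.Agent.Helper96.LB3.Main

open MeasureTheory Module
open scoped ENNReal

namespace Pool.Agent.Helper96.LB3

open Helper86.LP

/-- The cube `[-1, 1]^n`. -/
def cube (n : ℕ) : Set (EuclideanSpace ℝ (Fin n)) := {x | ∀ i, |x i| ≤ 1}

/-- The volume of the section of the box `D_t [-1, 1]^n` by the subspace `H`. -/
noncomputable def boxSectionVolume {n : ℕ} (H : Submodule ℝ (EuclideanSpace ℝ (Fin n)))
    (t : Fin n → ℝ) : ℝ :=
  (volumeIn H (diagExp t '' cube n)).toReal

theorem box_set {n : ℕ} (H : Submodule ℝ (EuclideanSpace ℝ (Fin n))) (t : Fin n → ℝ) :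
    {x : H | (x : EuclideanSpace ℝ (Fin n)) ∈ diagExp t '' cube n} =
      KS (co H) (fun u => Real.exp (t u)) := by
  ext x
  constructor
  · rintro ⟨y, hy, hyx⟩ i
    have h1 : (x : EuclideanSpace ℝ (Fin n)) i = Real.exp (t i) * y i := by
      rw [← hyx]
      rfl
    have h2 : co H i x = (x : EuclideanSpace ℝ (Fin n)) i := rfl
    rw [h2, h1, abs_mul, abs_of_pos (Real.exp_pos _)]
    exact mul_le_of_le_one_right (Real.exp_pos _).le (hy i)
  · intro hx
    refine ⟨WithLp.toLp 2 fun i => Real.exp (-t i) * (x : EuclideanSpace ℝ (Fin n)) i, ?_, ?_⟩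
    · intro i
      have h2 : |(x : EuclideanSpace ℝ (Fin n)) i| ≤ Real.exp (t i) := hx i
      change |Real.exp (-t i) * (x : EuclideanSpace ℝ (Fin n)) i| ≤ 1
      rw [abs_mul, abs_of_pos (Real.exp_pos _), Real.exp_neg]
      rw [inv_mul_le_iff₀ (Real.exp_pos _), mul_one]
      exact h2
    · ext i
      change Real.exp (t i) * (Real.exp (-t i) * (x : EuclideanSpace ℝ (Fin n)) i) =
        (x : EuclideanSpace ℝ (Fin n)) i
      rw [← mul_assoc, ← Real.exp_add, add_neg_cancel, Real.exp_zero, one_mul]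

theorem box_eq {n : ℕ} (H : Submodule ℝ (EuclideanSpace ℝ (Fin n))) (t : Fin n → ℝ) :
    boxSectionVolume H t = VS (volume : Measure H) (co H) (fun u => Real.exp (t u)) := by
  unfold boxSectionVolume volumeIn VS Measure.real
  rw [box_set]

theorem lc_box {n : ℕ} (H : Submodule ℝ (EuclideanSpace ℝ (Fin n))) (hH : finrank ℝ H ≤ 3) :
    IsLogConcave (boxSectionVolume H) := by
  have hpos : ∀ t : Fin n → ℝ, 0 < boxSectionVolume H t := by
    intro t
    rw [box_eq]
    exact (h_POS H (Fin n) volume (co H) (fun u => Real.exp (t u)) (sep_co H)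
      fun u => Real.exp_pos _).2.2.1
  refine ⟨hpos, convex_univ, ?_⟩
  intro s _ t _ l m hl hm hlm
  rcases hl.eq_or_lt with h0 | hl0
  · have hm1 : m = 1 := by linarith
    rw [← h0, hm1]
    simp
  rcases hm.eq_or_lt with h0 | hm0
  · have hl1 : l = 1 := by linarith
    rw [← h0, hl1]
    simp
  have key := lc_cube H hH hl0 hm0 hlm s t
  have e : (fun u => Real.exp (l * s u + m * t u)) = fun u => Real.exp ((l • s + m • t) u) := by
    funext u
    simp [Pi.add_apply, Pi.smul_apply, smul_eq_mul]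
  rw [e, ← box_eq, ← box_eq, ← box_eq] at key
  have h1 := Real.rpow_pos_of_pos (hpos s) l
  have h2 := Real.rpow_pos_of_pos (hpos t) m
  have h3 := Real.log_le_log (mul_pos h1 h2) key
  rw [Real.log_mul h1.ne' h2.ne', Real.log_rpow (hpos s), Real.log_rpow (hpos t)] at h3
  simpa [smul_eq_mul] using h3

end Pool.Agent.Helper96.LB3
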