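import Pool.Agent.Helper96.LB3.Stmts

open MeasureTheory Module
open scoped ENNReal

namespace Pool.Agent.Helper96.LB3

theorem sep_co {n : ℕ} (H : Submodule ℝ (EuclideanSpace ℝ (Fin n))) : Sep (co H) := by
  intro x hx
  ext i
  exact hx i

/-- The final assembly: from `LBM 3` to the section functions of subspaces of dimension at
most three. -/
theorem fin_of_lbm (hMID : ST_MID) (hLOW : ST_LOW) (hPRE : ST_PRE) {d : ℕ} (h : LBM d)
    (p : ℝ) (hp : 1 ≤ p) (n : ℕ) (H : Submodule ℝ (EuclideanSpace ℝ (Fin n)))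
    (hH : finrank ℝ H ≤ d) : Helper86.LP.IsLogConcave (Helper86.LP.sectionVolume p H) := by
  have hlow : ∀ j : ℕ, ∀ k : ℕ, LBM (k + j) → LBM k := by
    intro j
    induction j with
    | zero => intro k hk; exact hk
    | succ j ih =>
      intro k hk
      apply ih
      apply hLOW
      exact hk
  have hk : LBM (finrank ℝ H) := by
    apply hlow (d - finrank ℝ H)
    rw [Nat.add_sub_cancel' hH]
    exact h
  apply hPRE n H _ p hp
  apply hMID H (Fin n) volume (co H) (sep_co H)
  intro hp' hm' h1 h2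
  exact hk H (Fin n) volume (co H) rfl (sep_co H) hp' hm' h1 h2

theorem st_FIN (hSUP : ST_SUP) (hPW : ST_PW3) (hMID : ST_MID) (hLOW : ST_LOW) (hPRE : ST_PRE)
    (p : ℝ) (hp : 1 ≤ p) (n : ℕ) (H : Submodule ℝ (EuclideanSpace ℝ (Fin n)))
    (hH : finrank ℝ H ≤ 3) : Helper86.LP.IsLogConcave (Helper86.LP.sectionVolume p H) :=
  fin_of_lbm hMID hLOW hPRE (hSUP 3 (by norm_num) hPW) p hp n H hH

end Pool.Agent.Helper96.LB3
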