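import Pool.Agent.Helper96.LB3.Fin
import Pool.Agent.Helper18.LB3.FIB
import Pool.Agent.Helper18.LB3.VO3
import Pool.Agent.Helper25.LB3.IMP
import Pool.Agent.Helper25.LB3.SUP
import Pool.Agent.Helper32.LB3.MID
import Pool.Agent.Helper36.LB3.PL3
import Pool.Agent.Helper39.LB3.VO0
import Pool.Agent.Helper45.LB3.LIN
import Pool.Agent.Helper45.LB3.LOW
import Pool.Agent.Helper51.LB3.PRP
import Pool.Agent.Helper52.LB3.PW3
import Pool.Agent.Helper56.LB3.BND
import Pool.Agent.Helper58.LB3.PRE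
import Pool.Agent.Helper70.LB3.VO2
import Pool.Agent.Helper99.LB3.POS
import Pool.Agent.Helper99.LB3.TIG

open MeasureTheory Module
open scoped ENNReal

namespace Pool.Agent.Helper96.LB3

theorem h_POS : ST_POS := Helper99.LB3.st_POS

theorem h_FIB : ST_FIB := Helper18.LB3.st_FIB

theorem h_VO0 : ST_VO0 := Helper39.LB3.st_VO0 h_POS

theorem h_IMP : ST_IMP :=
  Helper25.LB3.st_IMP h_VO0 (Helper39.LB3.st_VO1 h_POS h_FIB) (Helper70.LB3.st_VO2 h_FIB)
    (Helper18.LB3.st_VO3 h_POS)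

theorem h_SUP : ST_SUP :=
  Helper25.LB3.st_SUP h_POS Helper56.LB3.st_BND Helper99.LB3.st_TIG Helper51.LB3.st_PRP
    Helper45.LB3.st_LIN h_VO0 h_IMP

/-- The log-Brunn-Minkowski inequality for intersections of strips in dimension three. -/
theorem lbm_three : LBM 3 := h_SUP 3 (by norm_num) (Helper52.LB3.st_PW3 Helper36.LB3.st_PL3)

theorem lbm_low {d : ℕ} (hd : d ≤ 3) : LBM d := by
  have h2 : LBM 2 := Helper45.LB3.st_LOW 2 lbm_three
  have h1 : LBM 1 := Helper45.LB3.st_LOW 1 h2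
  have h0 : LBM 0 := Helper45.LB3.st_LOW 0 h1
  interval_cases d
  · exact h0
  · exact h1
  · exact h2
  · exact lbm_three

/-- All weights, for the coordinate functionals on a subspace of dimension at most three. -/
theorem lc_cube {n : ℕ} (H : Submodule ℝ (EuclideanSpace ℝ (Fin n))) (hH : finrank ℝ H ≤ 3)
    {l m : ℝ} (hl : 0 < l) (hm : 0 < m) (hlm : l + m = 1) (σ τ : Fin n → ℝ) :
    VS (volume : Measure H) (co H) (fun u => Real.exp (σ u)) ^ l *
      VS (volume : Measure H) (co H) (fun u => Real.exp (τ u)) ^ m ≤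
      VS (volume : Measure H) (co H) (fun u => Real.exp (l * σ u + m * τ u)) :=
  Helper32.LB3.st_MID h_POS H (Fin n) volume (co H) (sep_co H)
    (fun hp hm h1 h2 => lbm_low hH H (Fin n) volume (co H) rfl (sep_co H) hp hm h1 h2)
    l m hl hm hlm σ τ

theorem lc_section {n : ℕ} (H : Submodule ℝ (EuclideanSpace ℝ (Fin n))) (hH : finrank ℝ H ≤ 3)
    {p : ℝ} (hp : 1 ≤ p) : Helper86.LP.IsLogConcave (Helper86.LP.sectionVolume p H) :=
  Helper58.LB3.st_PRE n H (fun _ _ hl hm hlm σ τ => lc_cube H hH hl hm hlm σ τ) p hp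

end Pool.Agent.Helper96.LB3
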